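import Pool.Agent.H7.ME.Stmts

/-!
# Row WVT of the board me17 (MP_fd41b2_co): the inequality for every vertex
(a copy of the row WVT of the board ld16, by helper33, after the row of ia13 by helper20, with weaker conditions)
-/

set_option autoImplicit false

open Finset

namespace Pool.ME7

open Pool.Agent.H23.KT Pool.Agent.H46.KW Pool.KQ Pool.GT7 Pool.GU7 Pool.HZ7 Pool.IA7

private lemma WVT_cz (p : ℕ) : 0 < cz p := by
  unfold cz e1
  positivity

private lemma WVT_mono {V : Type} {G : SimpleGraph V} {p a : ℕ} {e e' C : ℝ} {W : Finset V}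
    {P : Fin (p + 3) → Finset V} {U : Finset V} (h : Str G p a e' C W P U) (he : e' ≤ e) :
    Str G p a e C W P U :=
  { par := h.par
    disU := h.disU
    cov := h.cov
    lo := fun i => le_trans (mul_le_mul_of_nonneg_right (by linarith) (Nat.cast_nonneg _)) (h.lo i)
    hi := fun i => (h.hi i).trans (mul_le_mul_of_nonneg_right (by linarith) (Nat.cast_nonneg _))
    mis := h.mis
    tot := h.tot
    cU := h.cU
    exc := h.exc }

private lemma WVT_monoq {V : Type} {G : SimpleGraph V} {p a : ℕ} {e f C C' C'' : ℝ} {W : Finset V}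
    {P : Fin (p + 3) → Finset V} {U : Finset V} (h : Stq G p a e f C C' W P U) (hC : C' ≤ C'') :
    Stq G p a e f C C'' W P U :=
  { par := h.par
    disU := h.disU
    cov := h.cov
    lo := h.lo
    hi := h.hi
    mis := h.mis
    tot := h.tot
    cU := h.cU.trans hC }

/-- the size of the neighbourhood -/
private lemma WVT_card {b A x C₂ ch : ℝ} (n : ℕ) (hb : 0 < b) (hA : 0 < A) (hx : 0 ≤ x)
    (hC : 0 ≤ C₂) (hch : 1 ≤ ch)
    (h : ch * A ^ (n + 1) ≤ ch * (x / b) ^ (n + 1) + C₂ * A ^ n) :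
    b * A ≤ x + b * C₂ := by
  have hy : 0 ≤ x / b := div_nonneg hx hb.le
  have hxy : x = b * (x / b) := by field_simp
  set y : ℝ := x / b with hyd
  have key : A ≤ y + C₂ := by
    by_contra hcon
    have hcon' := lt_of_not_ge hcon
    have hyA : y ≤ A := by linarith
    have h1 : y ^ (n + 1) ≤ y * A ^ n := by
      rw [pow_succ, mul_comm]
      exact mul_le_mul_of_nonneg_left (pow_le_pow_left₀ hy hyA n) hy
    have h2 : 0 < A ^ n := by positivity
    have h3 : ch * A ^ (n + 1) = ch * (A * A ^ n) := by rw [pow_succ]; ring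
    have h4 : ch * y ^ (n + 1) ≤ ch * (y * A ^ n) := mul_le_mul_of_nonneg_left h1 (by linarith)
    have h5 : ch * ((A - y) * A ^ n) ≤ C₂ * A ^ n := by
      have : ch * ((A - y) * A ^ n) = ch * (A * A ^ n) - ch * (y * A ^ n) := by ring
      linarith
    have h6 : C₂ * A ^ n < (A - y) * A ^ n := mul_lt_mul_of_pos_right (by linarith) h2
    have h7 : 0 ≤ (A - y) * A ^ n := mul_nonneg (by linarith) h2.le
    have h8 : 1 * ((A - y) * A ^ n) ≤ ch * ((A - y) * A ^ n) := mul_le_mul_of_nonneg_right hch h7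
    linarith
  have := mul_le_mul_of_nonneg_left key hb.le
  rw [hxy]
  linarith

theorem WVT_thm (h1 : STCStmt) (h2 : MMCStmt) (h3 : REFStmt) (h4 : LOTStmt) (h5 : PWTStmt)
    (h6 : TTRStmt) (h7 : ZYGStmt) : WVTStmt := by
  intro p w r hP
  obtain ⟨hZ, hph0, hph1, -, -⟩ := h5 p w r hP
  have hwp := hP.wp
  have hrp := hP.rp
  have hrb := hZ.rb
  have hp0 : (0 : ℝ) ≤ p := Nat.cast_nonneg p
  have hw0 : (0 : ℝ) ≤ w := Nat.cast_nonneg w
  have hr0 : (0 : ℝ) < r := by
    have : 0 < r := by omega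
    exact_mod_cast this
  have hrp' : (r : ℝ) ≤ (p : ℝ) + 1 := by exact_mod_cast hrp
  have hc1p : 0 < c1 p w := by
    unfold c1
    have : 0 < (p + 2).choose (w + 1) := Nat.choose_pos (by omega)
    exact_mod_cast this
  have hlz : 0 ≤ ltt p w r := by
    unfold ltt
    refine div_nonneg (mul_nonneg (mul_nonneg (by linarith) hc1p.le) (by linarith)) (by linarith)
  set C₂ : ℝ := 2 ^ (p + 3) * (c1 p w * pt p w r * r) + ltt p w r + 1 with hC₂
  have hC₂0 : 0 ≤ C₂ := by positivity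
  obtain ⟨C, hC, hSTC⟩ := h1 p w hwp C₂
  obtain ⟨C₁, aM, hMMC⟩ := h2 p w hwp C₂
  have hcz := WVT_cz p
  have hphc : 0 < (1 - pt p w r) * c1 p w := mul_pos (by linarith) hc1p
  have hczb : 0 < cz p / (2 * ((p : ℝ) + 3) ^ 2) := div_pos hcz (by positivity)
  have hc0 : 0 < min 1 (min ((1 - pt p w r) * c1 p w) (cz p / (2 * ((p : ℝ) + 3) ^ 2))) :=
    lt_min one_pos (lt_min hphc hczb)
  set c : ℝ := min 1 (min ((1 - pt p w r) * c1 p w) (cz p / (2 * ((p : ℝ) + 3) ^ 2))) with hc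
  have hc1 : c ≤ 1 := min_le_left _ _
  have hc2 : c ≤ (1 - pt p w r) * c1 p w := (min_le_right _ _).trans (min_le_left _ _)
  have hc3 : c ≤ cz p / (2 * ((p : ℝ) + 3) ^ 2) := (min_le_right _ _).trans (min_le_right _ _)
  refine ⟨c, C, hc0, hC, fun ε e hε he he8 => ?_⟩
  obtain ⟨f, hf0, hf1, hLOQ⟩ := h4 p w r hP C (ε / 2) hC (half_pos hε)
  obtain ⟨CR, hCR, hREF⟩ := h3 p f C hf0 hC
  set Cm : ℝ := max CR (((p : ℝ) + 3) * C₂ + r) with hCm
  obtain ⟨e₀, he₀, he₀', aL, hLOQ'⟩ := hLOQ Cm (lt_max_of_lt_left hCR)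
  set e' : ℝ := min e (e₀ / 2) with he'
  have he'0 : 0 < e' := lt_min he (half_pos he₀)
  have he'e : e' ≤ e := min_le_left _ _
  have he'2 : 2 * e' ≤ e₀ := by
    have : e' ≤ e₀ / 2 := min_le_right _ _
    linarith
  obtain ⟨aR, hREF'⟩ := hREF e' he'0 (by linarith)
  obtain ⟨aS, hSTC'⟩ := hSTC e' he'0 (by linarith)
  refine ⟨max (max (max aM aL) (max aR aS)) (max 1 ⌈4 * (ltt p w r * C₁) / ε⌉₊), fun a ha => ?_⟩
  intro V _ _ G hG v
  have haM : a ≥ aM := le_trans (le_max_left _ _) (le_trans (le_max_left _ _)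
    (le_trans (le_max_left _ _) ha))
  have haL : a ≥ aL := le_trans (le_max_right _ _) (le_trans (le_max_left _ _)
    (le_trans (le_max_left _ _) ha))
  have haR : a ≥ aR := le_trans (le_max_left _ _) (le_trans (le_max_right _ _)
    (le_trans (le_max_left _ _) ha))
  have haS : a ≥ aS := le_trans (le_max_right _ _) (le_trans (le_max_right _ _)
    (le_trans (le_max_left _ _) ha))
  have ha1' : 1 ≤ a := le_trans (le_max_left _ _) (le_trans (le_max_right _ _) ha)
  have haE : 4 * (ltt p w r * C₁) / ε ≤ (a : ℝ) := by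
    refine (Nat.le_ceil _).trans ?_
    exact_mod_cast le_trans (le_max_right 1 _) (le_trans (le_max_right _ _) ha)
  have ha1 : (1 : ℝ) ≤ a := by exact_mod_cast ha1'
  have ha0 : (0 : ℝ) < a := by linarith
  set W : Finset V := nb G univ v with hW
  have hCB : CB G W (p + 3) := CB.nb (r := p + 3) hG.cb (mem_univ v)
  have hWc : W.card ≤ (p + 3) * a + r := hG.deg v
  have hWc' : W.card ≤ (p + 3) * (a + 1) := by
    have : r ≤ p + 3 := by omega
    calc W.card ≤ (p + 3) * a + r := hWc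
      _ ≤ (p + 3) * a + (p + 3) := by omega
      _ = (p + 3) * (a + 1) := by ring
  have hpow : (0 : ℝ) < (a : ℝ) ^ (p + 3) := by positivity
  set A : ℝ := (a : ℝ) ^ (w + 1) with hA
  have hA0 : 0 < A := by positivity
  have hM0 : 0 ≤ Mt p w r a := by
    unfold Mt
    positivity
  have hMb : Mt p w r a * (a : ℝ) ^ (p + 3) = c1 p w * pt p w r * A := by
    unfold Mt
    rw [div_mul_cancel₀ _ hpow.ne']
  by_cases hdf : C₂ * A ≤ df G p w r a W
  · refine ⟨c, Or.inl rfl, ?_⟩
    have hkc : (kc G W (p + 3) : ℝ) ≤ 2 ^ (p + 3) * (a : ℝ) ^ (p + 3) := by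
      have g1 := h7 G (p + 3) W hCB (p + 3)
      rw [Nat.choose_self, Nat.cast_one, one_mul] at g1
      have g2 : (W.card : ℝ) / ((p + 3 : ℕ) : ℝ) ≤ 2 * a := by
        rw [div_le_iff₀ (by positivity)]
        have g3 : (W.card : ℝ) ≤ ((p + 3 : ℕ) : ℝ) * ((a : ℝ) + 1) := by exact_mod_cast hWc'
        have g4 : (0 : ℝ) ≤ ((p + 3 : ℕ) : ℝ) := Nat.cast_nonneg _
        nlinarith
      calc (kc G W (p + 3) : ℝ) ≤ ((W.card : ℝ) / ((p + 3 : ℕ) : ℝ)) ^ (p + 3) := g1
        _ ≤ (2 * (a : ℝ)) ^ (p + 3) := pow_le_pow_left₀ (by positivity) g2 _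
        _ = _ := mul_pow _ _ _
    have hsum : ∑ L ∈ clq G W (p + 3), min (r : ℝ) (XX G p r a W L) ≤
        r * (kc G W (p + 3) : ℝ) := by
      calc ∑ L ∈ clq G W (p + 3), min (r : ℝ) (XX G p r a W L)
          ≤ ∑ _L ∈ clq G W (p + 3), (r : ℝ) := Finset.sum_le_sum fun L _ => min_le_left _ _
        _ = r * (kc G W (p + 3) : ℝ) := by
            rw [Finset.sum_const, nsmul_eq_mul, kc_eq, mul_comm]
    have g5 : Mt p w r a * ∑ L ∈ clq G W (p + 3), min (r : ℝ) (XX G p r a W L) ≤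
        2 ^ (p + 3) * (c1 p w * pt p w r * r) * A := by
      calc Mt p w r a * ∑ L ∈ clq G W (p + 3), min (r : ℝ) (XX G p r a W L)
          ≤ Mt p w r a * (r * (2 ^ (p + 3) * (a : ℝ) ^ (p + 3))) :=
            mul_le_mul_of_nonneg_left (hsum.trans (mul_le_mul_of_nonneg_left hkc hr0.le)) hM0
        _ = 2 ^ (p + 3) * r * (Mt p w r a * (a : ℝ) ^ (p + 3)) := by ring
        _ = 2 ^ (p + 3) * (c1 p w * pt p w r * r) * A := by
            rw [hMb]
            ring
    have g6 : 0 ≤ Mt p w r a * ((r : ℝ) / ((p : ℝ) + 4)) * kc G W (p + 3) := by positivity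
    have g7 : c * A ≤ 1 * A := mul_le_mul_of_nonneg_right hc1 hA0.le
    have g8 : 0 ≤ ε * A := by positivity
    rw [hC₂, add_mul, add_mul] at hdf
    linarith
  · have hdf' := lt_of_not_ge hdf
    have hTT : ((p + 3).choose (w + 2) : ℝ) * (a : ℝ) ^ (w + 2) ≤ TT (p + 3) (w + 2) a r := by
      have := (h6.2.2.1 (p + 3) (w + 2) a r (by omega)).1
      exact_mod_cast this
    have hdfe : df G p w r a W = (TT (p + 3) (w + 2) a r : ℝ) - kc G W (w + 2) := rfl
    have hk : ((p + 3).choose (w + 2) : ℝ) * (a : ℝ) ^ (w + 2) ≤ kc G W (w + 2) + C₂ * A := by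
      rw [hdfe] at hdf'
      linarith
    obtain ⟨P, U, hStr⟩ := hSTC' a haS G W hCB hWc' hk
    have hmm := hMMC a haM G W hCB hWc' hk
    obtain ⟨P', U', hStq, hUU, hlow⟩ := hREF' a haR G W P U hStr
    -- the size of `W`
    have hsize : (((p + 3) * a + r : ℕ) : ℝ) ≤ W.card + Cm := by
      have g1 := h7 G (p + 3) W hCB (w + 2)
      have hch : (1 : ℝ) ≤ ((p + 3).choose (w + 2) : ℝ) := by
        have : 1 ≤ (p + 3).choose (w + 2) := Nat.choose_pos (by omega)
        exact_mod_cast this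
      have g2 : (W.card : ℝ) / ((p + 3 : ℕ) : ℝ) = (W.card : ℝ) / ((p : ℝ) + 3) := by
        push_cast
        rfl
      rw [g2] at g1
      have g3 := WVT_card (b := (p : ℝ) + 3) (A := a) (x := W.card) (C₂ := C₂) (w + 1)
        (by linarith) ha0 (Nat.cast_nonneg _) hC₂0 hch (by
          show ((p + 3).choose (w + 2) : ℝ) * (a : ℝ) ^ (w + 2) ≤
            ((p + 3).choose (w + 2) : ℝ) * ((W.card : ℝ) / ((p : ℝ) + 3)) ^ (w + 2) +
              C₂ * (a : ℝ) ^ (w + 1)
          linarith)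
      have g4 : ((p : ℝ) + 3) * C₂ + r ≤ Cm := le_max_right _ _
      push_cast
      linarith
    have hloc := hLOQ' a haL G (2 * e') W P' U' (by linarith) he'2
      (WVT_monoq hStq (le_max_left _ _)) hCB hWc hsize
    -- the number of cliques
    have hkb : ltt p w r * A - ε / 4 * A ≤
        Mt p w r a * ((r : ℝ) / ((p : ℝ) + 4)) * kc G W (p + 3) := by
      have g1 : (a : ℝ) ^ (p + 4) ≤ (a + C₁) * kc G W (p + 3) := by exact_mod_cast hmm
      have hC₁ : (0 : ℝ) ≤ C₁ := Nat.cast_nonneg _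
      have g2 : Mt p w r a * ((r : ℝ) / ((p : ℝ) + 4)) * (a : ℝ) ^ (p + 3) = ltt p w r * A := by
        calc Mt p w r a * ((r : ℝ) / ((p : ℝ) + 4)) * (a : ℝ) ^ (p + 3)
            = (Mt p w r a * (a : ℝ) ^ (p + 3)) * ((r : ℝ) / ((p : ℝ) + 4)) := by ring
          _ = ltt p w r * A := by
              rw [hMb]
              unfold ltt pt
              field_simp
      set κ : ℝ := (kc G W (p + 3) : ℝ) with hκ
      set ν : ℝ := Mt p w r a * ((r : ℝ) / ((p : ℝ) + 4)) with hν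
      have hν0 : 0 ≤ ν := by positivity
      have g3 : (ltt p w r * A) * a ≤ (a + C₁) * (ν * κ) := by
        calc (ltt p w r * A) * a = ν * ((a : ℝ) ^ (p + 3) * a) := by rw [← g2]; ring
          _ = ν * (a : ℝ) ^ (p + 4) := by rw [← pow_succ]
          _ ≤ ν * ((a + C₁) * κ) := mul_le_mul_of_nonneg_left g1 hν0
          _ = _ := by ring
      have g4 : 4 * (ltt p w r * C₁) ≤ a * ε := by
        rwa [div_le_iff₀ hε] at haE
      by_contra hcon
      have hcon' := lt_of_not_ge hcon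
      have g5 : ((a : ℝ) + C₁) * (ν * κ) < (a + C₁) * (ltt p w r * A - ε / 4 * A) :=
        mul_lt_mul_of_pos_left hcon' (by linarith)
      have g6 : ((a : ℝ) + C₁) * (ltt p w r * A - ε / 4 * A) =
          (ltt p w r * A) * a + (ltt p w r * C₁) * A - ε / 4 * a * A - C₁ * (ε / 4 * A) := by ring
      have g7 : (ltt p w r * C₁) * A ≤ (a * ε / 4) * A :=
        mul_le_mul_of_nonneg_right (by linarith) hA0.le
      have g8 : 0 ≤ C₁ * (ε / 4 * A) := by positivity
      have g9 : (a * ε / 4) * A = ε / 4 * a * A := by ring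
      linarith
    have hlow0 : ∀ z ∈ U', 0 ≤ (nlow G p (un P') z : ℝ) / (a : ℝ) ^ (p + 2 - w) :=
      fun z _ => by positivity
    have hS0 : 0 ≤ ∑ z ∈ U', (nlow G p (un P') z : ℝ) / (a : ℝ) ^ (p + 2 - w) :=
      Finset.sum_nonneg hlow0
    set S : ℝ := ∑ z ∈ U', (nlow G p (un P') z : ℝ) / (a : ℝ) ^ (p + 2 - w) with hS
    have hb2 : (0 : ℝ) < 1 / (2 * ((p : ℝ) + 3) ^ 2) := by positivity
    have hdel : 0 ≤ (((p + 3) * a + r : ℕ) : ℝ) - W.card := by
      have : (W.card : ℝ) ≤ (((p + 3) * a + r : ℕ) : ℝ) := by exact_mod_cast hWc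
      linarith
    have hεa : 0 ≤ ε * A := by positivity
    have hphA : 0 ≤ (1 - pt p w r) * c1 p w * A := mul_nonneg hphc.le hA0.le
    by_cases hcard : W.card = (p + 3) * a + r
    · by_cases hU : U = ∅
      · refine ⟨0, Or.inr ⟨rfl, P, hcard, ?_⟩, ?_⟩
        · rw [hU] at hStr
          exact WVT_mono hStr he'e
        · have g1 : 0 ≤ (1 - pt p w r) * c1 p w * A * ((((p + 3) * a + r : ℕ) : ℝ) - W.card) :=
            mul_nonneg hphA hdel
          have g2 : 0 ≤ 1 / (2 * ((p : ℝ) + 3) ^ 2) * S := mul_nonneg hb2.le hS0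
          linarith
      · refine ⟨c, Or.inl rfl, ?_⟩
        obtain ⟨z, hz⟩ := Finset.nonempty_iff_ne_empty.2 hU
        have g1 : 0 ≤ (1 - pt p w r) * c1 p w * A * ((((p + 3) * a + r : ℕ) : ℝ) - W.card) :=
          mul_nonneg hphA hdel
        have g2 : cz p * A ≤ S := by
          have g3 : (nlow G p (un P') z : ℝ) / (a : ℝ) ^ (p + 2 - w) ≤ S :=
            Finset.single_le_sum hlow0 (hUU hz)
          have g4 : cz p * A ≤ (nlow G p (un P') z : ℝ) / (a : ℝ) ^ (p + 2 - w) := by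
            rw [le_div_iff₀ (by positivity)]
            calc cz p * A * (a : ℝ) ^ (p + 2 - w) = cz p * (a : ℝ) ^ (p + 3) := by
                  rw [hA, mul_assoc, ← pow_add]
                  congr 2
                  omega
              _ ≤ _ := hlow z hz
          linarith
        have g3 : c * A ≤ 1 / (2 * ((p : ℝ) + 3) ^ 2) * S := by
          calc c * A ≤ cz p / (2 * ((p : ℝ) + 3) ^ 2) * A :=
                mul_le_mul_of_nonneg_right hc3 hA0.le
            _ = 1 / (2 * ((p : ℝ) + 3) ^ 2) * (cz p * A) := by ring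
            _ ≤ _ := mul_le_mul_of_nonneg_left g2 hb2.le
        linarith
    · refine ⟨c, Or.inl rfl, ?_⟩
      have g0 : (1 : ℝ) ≤ (((p + 3) * a + r : ℕ) : ℝ) - W.card := by
        have : W.card + 1 ≤ (p + 3) * a + r := by omega
        have : ((W.card + 1 : ℕ) : ℝ) ≤ (((p + 3) * a + r : ℕ) : ℝ) := by exact_mod_cast this
        rw [Nat.cast_add, Nat.cast_one] at this
        linarith
      have g1 : (1 - pt p w r) * c1 p w * A * 1 ≤
          (1 - pt p w r) * c1 p w * A * ((((p + 3) * a + r : ℕ) : ℝ) - W.card) :=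
        mul_le_mul_of_nonneg_left g0 hphA
      have g2 : 0 ≤ 1 / (2 * ((p : ℝ) + 3) ^ 2) * S := mul_nonneg hb2.le hS0
      have g3 : c * A ≤ (1 - pt p w r) * c1 p w * A := mul_le_mul_of_nonneg_right hc2 hA0.le
      linarith

end Pool.ME7
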